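import Pool.Agent.H35.SW.CDefs

/-!
Module CTBA of project SW: absoluteness of `Ctb`, from absoluteness of `Onto`.
-/

set_option linter.unusedVariables false
set_option synthInstance.maxSize 100000

namespace SW

theorem tripleIn_iff' {M : Type} [SetStr M] [ZF M] {x m c R : M} :
    TripleIn x m c R ↔ E (opair (opair x m) c) R := by
  constructor
  · rintro ⟨y, hy, h⟩
    rw [isOP_iff] at hy
    rw [pairIn_iff] at h
    rwa [← hy]
  · intro h
    exact ⟨opair x m, isOP_iff.2 rfl, pairIn_iff.2 h⟩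

theorem ctb_iff_onto {M : Type} [SetStr M] [ZF M] (K l : M) :
    Ctb K l ↔ Onto K (sing emp) l := by
  constructor
  · rintro ⟨g, hf, ho⟩
    refine ⟨sep (prod (prod (sing emp) K) l)
      (fun p => ∃ m c : M, p = opair (opair emp m) c ∧ E (opair m c) g), ?_, ?_⟩
    · intro x m c c' hx hm h h'
      rw [tripleIn_iff', mem_sep] at h h'
      obtain ⟨-, m1, c1, e1, h1⟩ := h
      obtain ⟨-, m2, c2, e2, h2⟩ := h'
      rw [opair_inj, opair_inj] at e1 e2
      obtain ⟨⟨-, e1m⟩, e1c⟩ := e1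
      obtain ⟨⟨-, e2m⟩, e2c⟩ := e2
      subst e1m e1c e2m e2c
      exact hf m c c' hm (pairIn_iff.2 h1) (pairIn_iff.2 h2)
    · intro c hc
      obtain ⟨m, hm, h⟩ := ho c hc
      refine ⟨emp, m, mem_sing.2 rfl, hm, ?_⟩
      rw [tripleIn_iff', mem_sep]
      refine ⟨?_, m, c, rfl, pairIn_iff.1 h⟩
      rw [mem_prod, mem_prod]
      exact ⟨⟨mem_sing.2 rfl, hm⟩, hc⟩
  · rintro ⟨g, hf, ho⟩
    refine ⟨sep (prod K l)
      (fun p => ∃ m c : M, p = opair m c ∧ E (opair (opair emp m) c) g), ?_, ?_⟩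
    · intro m c c' hm h h'
      rw [pairIn_iff, mem_sep] at h h'
      obtain ⟨-, m1, c1, e1, h1⟩ := h
      obtain ⟨-, m2, c2, e2, h2⟩ := h'
      rw [opair_inj] at e1 e2
      obtain ⟨e1m, e1c⟩ := e1
      obtain ⟨e2m, e2c⟩ := e2
      subst e1m e1c e2m e2c
      exact hf emp m c c' (mem_sing.2 rfl) hm (tripleIn_iff'.2 h1) (tripleIn_iff'.2 h2)
    · intro c hc
      obtain ⟨x, m, hx, hm, h⟩ := ho c hc
      rw [mem_sing] at hx
      subst hx
      refine ⟨m, hm, ?_⟩
      rw [pairIn_iff, mem_sep]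
      refine ⟨mem_prod.2 ⟨hm, hc⟩, m, c, rfl, tripleIn_iff'.1 h⟩

theorem ctba (htra : TRAStmt) (honta : ONTAStmt) : CTBAStmt := by
  intro M _ _ _ hf K θ hK G hG _ l hl
  have hT := htra M (Coh hf K θ) G hG
  have hs : emb (Coh hf K θ) G (sing emp) = sing emp := by
    have e1 : (sing emp : M) = ins emp emp := ext fun z => by simp
    have e2 : (sing emp : Ext (Coh hf K θ) G) = ins emp emp := ext fun z => by simp
    rw [e1, e2, hT.ins, hT.emp]
  rw [ctb_iff_onto, ctb_iff_onto, ← hs]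
  exact honta M hf K θ hK G hG (sing emp) l hl

end SW
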