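import Pool.Agent.H45.SW.ONTA

/-!
Module GOOA of project SW: absoluteness of `Good` between `M` and a Cohen extension.
-/

set_option linter.unusedVariables false
set_option synthInstance.maxSize 100000

namespace SW

theorem onto_mono {M : Type} [SetStr M] [ZF M] {K J J' l : M} (hJ : Sub J J')
    (h : Onto K J l) : Onto K J' l := by
  obtain ⟨g, hf, ho⟩ := h
  refine ⟨sep g (fun p => ∃ x m c : M, p = opair (opair x m) c ∧ E x J), ?_, ?_⟩
  · intro x m c c' hx hm h h'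
    rw [tripleIn_iff', mem_sep] at h h'
    obtain ⟨h1, x1, m1, c1, e1, hx1⟩ := h
    obtain ⟨h2, x2, m2, c2, e2, hx2⟩ := h'
    rw [opair_inj, opair_inj] at e1 e2
    obtain ⟨⟨e1x, e1n⟩, e1c⟩ := e1
    subst e1x
    exact hf _ _ _ _ hx1 hm (tripleIn_iff'.2 h1) (tripleIn_iff'.2 h2)
  · intro c hc
    obtain ⟨x, m, hx, hm, h⟩ := ho c hc
    refine ⟨x, m, hJ x hx, hm, ?_⟩
    rw [tripleIn_iff', mem_sep]
    exact ⟨tripleIn_iff'.1 h, x, m, c, rfl, hx⟩

theorem emb_triple_right {M : Type} [SetStr M] [ZF M] {F : FPoset M} {G : M → Prop}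
    [ZF (Ext F G)] (hE : EmbFacts F G) (hT : TraFacts F G) {x m g : M} {c : Ext F G}
    (h : TripleIn (emb F G x) (emb F G m) c (emb F G g)) :
    ∃ c0, c = emb F G c0 ∧ TripleIn x m c0 g := by
  rw [tripleIn_iff'] at h
  obtain ⟨z, hz, e⟩ := hE.trans _ _ h
  obtain ⟨c0, rfl⟩ := emb_opair_right hE e
  refine ⟨c0, rfl, ?_⟩
  rw [← hT.opair, ← hT.opair, hE.inj] at e
  rw [tripleIn_iff', e]
  exact hz

theorem emb_pair_right {M : Type} [SetStr M] [ZF M] {F : FPoset M} {G : M → Prop}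
    [ZF (Ext F G)] (hE : EmbFacts F G) (hT : TraFacts F G) {m g : M} {c : Ext F G}
    (h : PairIn (emb F G m) c (emb F G g)) :
    ∃ c0, c = emb F G c0 ∧ PairIn m c0 g := by
  rw [pairIn_iff] at h
  obtain ⟨z, hz, e⟩ := hE.trans _ _ h
  obtain ⟨c0, rfl⟩ := emb_opair_right hE e
  refine ⟨c0, rfl, ?_⟩
  rw [← hT.opair, hE.inj] at e
  rw [pairIn_iff, e]
  exact hz

theorem gooa (hemb : EMBStmt) (hhf : HFStmt) (htra : TRAStmt) (hvle : VLEStmt)
    (honta : ONTAStmt) : GOOAStmt := by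
  intro M _ _ _ hf K θ hK G hG _ k l hk hl
  have hT := htra M (Coh hf K θ) G hG
  have hE := hemb M (Coh hf K θ) G hG
  have hH := hhf M K hK
  constructor
  · rintro ⟨S, h1, h2, h3⟩
    obtain ⟨W, hW, hW'⟩ := hvle M hf K θ hK G hG (prod k K) l hl S (by
      intro z c c' hz hc hc' h h'
      rw [mem_prod'] at hz
      obtain ⟨b, m, hb, hm, rfl⟩ := hz
      rw [hT.opair] at h h'
      have := h2 (emb _ G b) (emb _ G m) (emb _ G c) (emb _ G c') ((hE.mem _ _).2 hb)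
        ((hE.mem _ _).2 hm) (tripleIn_iff'.2 h) (tripleIn_iff'.2 h')
      exact (hE.inj _ _).1 this)
    refine ⟨sep (prod (prod k K) l) (fun p => ∃ b m j c : M,
      p = opair (opair b (opair m j)) c ∧ E (opair (opair (opair b m) j) c) W), ?_, ?_, ?_⟩
    · intro b n c hb hn h
      rw [tripleIn_iff', mem_sep, mem_prod] at h
      exact h.1.2
    · intro b n c c' hb hn h h'
      rw [tripleIn_iff', mem_sep] at h h'
      obtain ⟨-, x1, m1, j1, c1, e1, h1'⟩ := h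
      obtain ⟨-, x2, m2, j2, c2, e2, h2'⟩ := h'
      rw [opair_inj, opair_inj] at e1 e2
      obtain ⟨⟨e1x, e1n⟩, e1c⟩ := e1
      obtain ⟨⟨e2x, e2n⟩, e2c⟩ := e2
      subst e1x e1n e1c e2x e2c
      rw [opair_inj] at e2n
      obtain ⟨em, ej⟩ := e2n
      subst em ej
      exact hW _ _ _ _ h1' h2'
    · intro a ha J' hJ' honto
      -- the set `J` of `N`
      have hPa : PFun (emb (Coh hf K θ) G K) (emb (Coh hf K θ) G a) := by
        intro m c c' hm h h'
        obtain ⟨m0, hm0, rfl⟩ := hE.trans _ _ hm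
        obtain ⟨c0, rfl, h0⟩ := emb_pair_right hE hT h
        obtain ⟨c1, rfl, h1⟩ := emb_pair_right hE hT h'
        rw [ha m0 c0 c1 hm0 h0 h1]
      refine h3 (emb _ G a) hPa (sep (emb (Coh hf K θ) G k)
        (fun b => ∀ m c : Ext (Coh hf K θ) G, E m (emb (Coh hf K θ) G K) → TripleIn b m c S →
          ∃ m', E m' (emb (Coh hf K θ) G K) ∧ PairIn m' c (emb (Coh hf K θ) G a))) ?_ ?_
      · intro b
        rw [mem_sep]
      · refine onto_mono ?_ (onto_emb hE hT honto)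
        intro b hb
        obtain ⟨b0, hb0, rfl⟩ := hE.trans _ _ hb
        obtain ⟨hb0k, hb0'⟩ := (hJ' b0).1 hb0
        rw [mem_sep]
        refine ⟨(hE.mem _ _).2 hb0k, ?_⟩
        intro m c hm hS
        have hcl := h1 _ _ _ ((hE.mem _ _).2 hb0k) hm hS
        obtain ⟨m0, hm0, rfl⟩ := hE.trans _ _ hm
        obtain ⟨c0, hc0, rfl⟩ := hE.trans _ _ hcl
        rw [tripleIn_iff', ← hT.opair] at hS
        obtain ⟨j, hj, hjW⟩ := hW' (opair b0 m0) c0 (mem_prod.2 ⟨hb0k, hm0⟩) hc0 hS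
        obtain ⟨m', hm', hma⟩ := hb0' (opair m0 j) c0 (hH.opair.2 ⟨hm0, hj⟩) (by
          rw [tripleIn_iff', mem_sep]
          exact ⟨mem_prod.2 ⟨mem_prod.2 ⟨hb0k, hH.opair.2 ⟨hm0, hj⟩⟩, hc0⟩, b0, m0, j, c0,
            rfl, hjW⟩)
        exact ⟨emb _ G m', (hE.mem _ _).2 hm', (hT.pairIn _ _ _).2 hma⟩
  · rintro ⟨S, h1, h2, h3⟩
    refine ⟨emb _ G S, ?_, ?_, ?_⟩
    · intro b m c hb hm h
      obtain ⟨b0, hb0, rfl⟩ := hE.trans _ _ hb
      obtain ⟨m0, hm0, rfl⟩ := hE.trans _ _ hm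
      obtain ⟨c0, rfl, h0⟩ := emb_triple_right hE hT h
      exact (hE.mem _ _).2 (h1 _ _ _ hb0 hm0 h0)
    · intro b m c c' hb hm h h'
      obtain ⟨b0, hb0, rfl⟩ := hE.trans _ _ hb
      obtain ⟨m0, hm0, rfl⟩ := hE.trans _ _ hm
      obtain ⟨c0, rfl, h0⟩ := emb_triple_right hE hT h
      obtain ⟨c1, rfl, h0'⟩ := emb_triple_right hE hT h'
      rw [h2 _ _ _ _ hb0 hm0 h0 h0']
    · intro a ha J hJ honto
      obtain ⟨W, hW, hW'⟩ := hvle M hf K θ hK G hG K l hl a (by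
        intro z c c' hz hc hc' h h'
        have := ha (emb _ G z) (emb _ G c) (emb _ G c') ((hE.mem _ _).2 hz)
          (pairIn_iff.2 h) (pairIn_iff.2 h')
        exact (hE.inj _ _).1 this)
      -- the function `a'` of `M`
      have ha' : PFun K (sep (prod K l) (fun p => ∃ m j c : M,
          p = opair (opair m j) c ∧ E (opair (opair m j) c) W)) := by
        intro n c c' hn h h'
        rw [pairIn_iff, mem_sep] at h h'
        obtain ⟨-, m1, j1, c1, e1, h1'⟩ := h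
        obtain ⟨-, m2, j2, c2, e2, h2'⟩ := h'
        rw [opair_inj] at e1 e2
        obtain ⟨e1n, e1c⟩ := e1
        obtain ⟨e2n, e2c⟩ := e2
        subst e1n e1c e2c
        rw [opair_inj] at e2n
        obtain ⟨em, ej⟩ := e2n
        subst em ej
        exact hW _ _ _ _ h1' h2'
      have hn := h3 _ ha' (sep k (fun b => ∀ m c : M, E m K → TripleIn b m c S →
        ∃ m', E m' K ∧ PairIn m' c (sep (prod K l) (fun p => ∃ m j c : M,
          p = opair (opair m j) c ∧ E (opair (opair m j) c) W)))) (by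
        intro b
        rw [mem_sep])
      apply hn
      rw [← honta M hf K θ hK G hG _ l hl]
      refine onto_mono ?_ honto
      intro b hb
      obtain ⟨hbk, hb'⟩ := (hJ b).1 hb
      obtain ⟨b0, hb0, rfl⟩ := hE.trans _ _ hbk
      rw [hE.mem, mem_sep]
      refine ⟨hb0, ?_⟩
      intro m c hm hS
      have hcl : E c l := h1 _ _ _ hb0 hm hS
      obtain ⟨m', hm', hma⟩ := hb' (emb _ G m) (emb _ G c) ((hE.mem _ _).2 hm)
        ((hT.tripleIn _ _ _ _).2 hS)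
      obtain ⟨m1, hm1, rfl⟩ := hE.trans _ _ hm'
      obtain ⟨j, hj, hjW⟩ := hW' m1 c hm1 hcl (pairIn_iff.1 hma)
      refine ⟨opair m1 j, hH.opair.2 ⟨hm1, hj⟩, ?_⟩
      rw [pairIn_iff, mem_sep]
      exact ⟨mem_prod.2 ⟨hH.opair.2 ⟨hm1, hj⟩, hcl⟩, m1, j, c, rfl, hjW⟩

end SW
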