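import Pool.Agent.H45.SW.CTBA

/-!
Module ONTA of project SW: absoluteness of `Onto` between `M` and a Cohen extension.
-/

set_option linter.unusedVariables false
set_option synthInstance.maxSize 100000

namespace SW

theorem emb_opair_right {M : Type} [SetStr M] [ZF M] {F : FPoset M} {G : M → Prop}
    [ZF (Ext F G)] (hE : EmbFacts F G) {u c : Ext F G} {z : M}
    (h : opair u c = emb F G z) : ∃ c0, c = emb F G c0 := by
  have h1 : E (upair u c) (emb F G z) := by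
    rw [← h]
    unfold opair
    rw [mem_upair]
    exact Or.inr rfl
  obtain ⟨s, -, hs⟩ := hE.trans _ _ h1
  have h2 : E c (emb F G s) := by
    rw [← hs, mem_upair]
    exact Or.inr rfl
  obtain ⟨c0, -, hc⟩ := hE.trans _ _ h2
  exact ⟨c0, hc⟩

theorem onto_emb {M : Type} [SetStr M] [ZF M] {F : FPoset M} {G : M → Prop}
    [ZF (Ext F G)] (hE : EmbFacts F G) (hT : TraFacts F G) {K J l : M} (h : Onto K J l) :
    Onto (emb F G K) (emb F G J) (emb F G l) := by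
  obtain ⟨g, hf, ho⟩ := h
  have key : ∀ (x m : M) (c : Ext F G), E (opair (opair (emb F G x) (emb F G m)) c) (emb F G g) →
      ∃ c0, c = emb F G c0 ∧ E (opair (opair x m) c0) g := by
    intro x m c h
    obtain ⟨z, hz, e⟩ := hE.trans _ _ h
    obtain ⟨c0, rfl⟩ := emb_opair_right hE e
    refine ⟨c0, rfl, ?_⟩
    rw [← hT.opair, ← hT.opair, hE.inj] at e
    rwa [e]
  refine ⟨emb F G g, ?_, ?_⟩
  · intro x m c c' hx hm h h'
    obtain ⟨x0, hx0, rfl⟩ := hE.trans _ _ hx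
    obtain ⟨m0, hm0, rfl⟩ := hE.trans _ _ hm
    rw [tripleIn_iff'] at h h'
    obtain ⟨c0, rfl, h0⟩ := key _ _ _ h
    obtain ⟨c1, rfl, h1⟩ := key _ _ _ h'
    rw [hE.inj]
    exact hf x0 m0 c0 c1 hx0 hm0 (tripleIn_iff'.2 h0) (tripleIn_iff'.2 h1)
  · intro c hc
    obtain ⟨c0, hc0, rfl⟩ := hE.trans _ _ hc
    obtain ⟨x, m, hx, hm, h⟩ := ho c0 hc0
    refine ⟨emb F G x, emb F G m, (hE.mem _ _).2 hx, (hE.mem _ _).2 hm, ?_⟩
    rw [tripleIn_iff'] at h ⊢
    rw [← hT.opair, ← hT.opair, hE.mem]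
    exact h

theorem onta (hemb : EMBStmt) (hhf : HFStmt) (htra : TRAStmt) (hvle : VLEStmt) : ONTAStmt := by
  intro M _ _ _ hf K θ hK G hG _ J l hl
  have hT := htra M (Coh hf K θ) G hG
  have hE := hemb M (Coh hf K θ) G hG
  have hH := hhf M K hK
  constructor
  · rintro ⟨g, hfun, honto⟩
    obtain ⟨W, hW, hW'⟩ := hvle M hf K θ hK G hG (prod J K) l hl g (by
      intro z c c' hz hc hc' h h'
      rw [mem_prod'] at hz
      obtain ⟨x, m, hx, hm, rfl⟩ := hz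
      rw [hT.opair] at h h'
      have := hfun (emb _ G x) (emb _ G m) (emb _ G c) (emb _ G c') ((hE.mem _ _).2 hx)
        ((hE.mem _ _).2 hm) (tripleIn_iff'.2 h) (tripleIn_iff'.2 h')
      exact (hE.inj _ _).1 this)
    refine ⟨sep (prod (prod J K) l) (fun p => ∃ x m j c : M,
      p = opair (opair x (opair m j)) c ∧ E (opair (opair (opair x m) j) c) W), ?_, ?_⟩
    · intro x n c c' hx hn h h'
      rw [tripleIn_iff', mem_sep] at h h'
      obtain ⟨-, x1, m1, j1, c1, e1, h1⟩ := h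
      obtain ⟨-, x2, m2, j2, c2, e2, h2⟩ := h'
      rw [opair_inj, opair_inj] at e1 e2
      obtain ⟨⟨e1x, e1n⟩, e1c⟩ := e1
      obtain ⟨⟨e2x, e2n⟩, e2c⟩ := e2
      subst e1x e1n e1c e2x e2c
      rw [opair_inj] at e2n
      obtain ⟨em, ej⟩ := e2n
      subst em ej
      exact hW _ _ _ _ h1 h2
    · intro c hc
      obtain ⟨x', m', hx', hm', h⟩ := honto (emb _ G c) ((hE.mem _ _).2 hc)
      obtain ⟨x, hx, rfl⟩ := hE.trans _ _ hx'
      obtain ⟨m, hm, rfl⟩ := hE.trans _ _ hm'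
      rw [tripleIn_iff', ← hT.opair] at h
      obtain ⟨j, hj, hjW⟩ := hW' (opair x m) c (mem_prod.2 ⟨hx, hm⟩) hc h
      refine ⟨x, opair m j, hx, hH.opair.2 ⟨hm, hj⟩, ?_⟩
      rw [tripleIn_iff', mem_sep]
      refine ⟨mem_prod.2 ⟨mem_prod.2 ⟨hx, hH.opair.2 ⟨hm, hj⟩⟩, hc⟩, x, m, j, c, rfl, hjW⟩
  · exact onto_emb hE hT

end SW
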